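import Pool.Agent.Q233.TL.Ar

/-!
# Trace patterns at consecutive primes for almost all vectors of quadratic twists

Let `E_j : y² = x³ + A_j x + B_j` be `k` arbitrary curves and `Q i x` arbitrary sets of primes. For nonzero integers
`t_j` let `P` be the set of the odd primes `p ≤ x` in `Q i x`, good for all curves, with `|a_p(E_j)| = |t_j|` for
all `j`. For almost all vectors `(D_1, …, D_k)` all `2 ^ (r k)` patterns `a_{p_i}(E_j^{D_j}) = ± t_j` at `r`
consecutive elements `p_1 < ⋯ < p_r` of `P` occur equally often, with square root error.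
-/

set_option autoImplicit false

namespace Pool.Agent.Results.MP_f1937f_nt.ConsecutivePatterns

open Finset Pool.Agent.W406.TW Pool.Agent.Q233.TL Pool.Agent.Q233.TL.Tup

/-- the odd primes `p ≤ x` in `Q`, not dividing `4 A_j³ + 27 B_j²` for any `j`, at which the trace of
Frobenius `ap (A j) (B j) p` of `y² = x³ + A_j x + B_j` is `t j` or `- t j` for all `j` -/
noncomputable def primesAbs {k : ℕ} (A B t : Fin k → ℤ) (Q : Set ℕ) (x : ℕ) : Finset ℕ := by
  classical
  exact (Icc 1 x).filter fun p : ℕ => p.Prime ∧ p ≠ 2 ∧ p ∈ Q ∧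
    ∀ j, ¬ (p : ℤ) ∣ 4 * A j ^ 3 + 27 * B j ^ 2 ∧ |ap (A j) (B j) p| = |t j|

/-- the number of the `r`-tuples `τ` of consecutive elements of `primesAbs` such that for all `i < r` and all
`j < k` the curve `y² = x³ + A_j (D j)² x + B_j (D j)³` has good reduction at `τ i` and trace `η (i, j) t_j` -/
noncomputable def patCount {r k : ℕ} (A B t D : Fin k → ℤ) (Q : Set ℕ) (η : Fin r × Fin k → ℤ)
    (x : ℕ) : ℕ := by
  classical
  exact ((consec (primesAbs A B t Q x) r).filter fun τ => ∀ z : Fin r × Fin k,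
    ¬ (τ z.1 : ℤ) ∣ 4 * (A z.2 * D z.2 ^ 2) ^ 3 + 27 * (B z.2 * D z.2 ^ 3) ^ 2 ∧
      ap (A z.2 * D z.2 ^ 2) (B z.2 * D z.2 ^ 3) (τ z.1) = η z * t z.2).card

open Classical in
lemma mem_PA {k : ℕ} {A B t : Fin k → ℤ} {Q : Set ℕ} {x p : ℕ} : p ∈ primesAbs A B t Q x ↔
    (1 ≤ p ∧ p ≤ x) ∧ p.Prime ∧ p ≠ 2 ∧ p ∈ Q ∧
    ∀ j, ¬ (p : ℤ) ∣ 4 * A j ^ 3 + 27 * B j ^ 2 ∧ |ap (A j) (B j) p| = |t j| := by
  unfold primesAbs
  rw [mem_filter, mem_Icc]

/-- predicate for the twist law -/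
def Ev {r k : ℕ} (A B t : Fin k → ℤ) (η : Fin r × Fin k → ℤ) (τ : Fin r → ℕ)
    (s : Fin r × Fin k → ℤ) : Prop :=
  ∀ z, s z * ap (A z.2) (B z.2) (τ z.1) = η z * t z.2

/-- exactly one array of signs realises a given pattern -/
lemma unique_sign {r k : ℕ} {A B t : Fin k → ℤ} (ht : ∀ j, t j ≠ 0) {Q : Set ℕ}
    {η : Fin r × Fin k → ℤ} (hη : η ∈ Sgt r k) {x : ℕ} {τ : Fin r → ℕ}
    (hτ : τ ∈ consec (primesAbs A B t Q x) r) [DecidablePred fun s => Ev A B t η τ s] :
    ((Sgt r k).filter fun s => Ev A B t η τ s).card = 1 := by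
  classical
  have hd : ∀ z : Fin r × Fin k, ∃ δ : ℤ, (δ = 1 ∨ δ = -1) ∧ ap (A z.2) (B z.2) (τ z.1) = δ * t z.2 := by
    intro z
    rcases abs_eq_abs.1 ((mem_PA.1 (consec_mem hτ z.1)).2.2.2.2 z.2).2 with h | h
    · exact ⟨1, Or.inl rfl, by rw [h, one_mul]⟩
    · exact ⟨-1, Or.inr rfl, by rw [h, neg_one_mul]⟩
  choose δ hδ hδt using hd
  rw [card_eq_one]
  refine ⟨fun z => η z * δ z, ?_⟩
  ext s
  rw [mem_filter, mem_singleton]
  constructor
  · rintro ⟨hs, h⟩
    funext z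
    have h1 := h z
    rw [hδt] at h1
    have h2 : s z * δ z = η z := by
      have : (s z * δ z) * t z.2 = η z * t z.2 := by rw [mul_assoc]; exact h1
      exact mul_right_cancel₀ (ht z.2) this
    rw [← h2, mul_assoc]
    rcases hδ z with h3 | h3 <;> rw [h3] <;> ring
  · rintro rfl
    constructor
    · rw [mem_Sgt]
      intro z
      rcases mem_Sgt.1 hη z with h1 | h1 <;> rcases hδ z with h2 | h2 <;> rw [h1, h2] <;> simp
    · intro z
      rw [hδt]
      have h3 : δ z * δ z = 1 := by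
        rcases hδ z with h2 | h2 <;> rw [h2] <;> norm_num
      change (η z * δ z) * (δ z * t z.2) = η z * t z.2
      linear_combination η z * t z.2 * h3

theorem result (r k : ℕ) (hr : 0 < r) (κ ε : ℝ) (hκ : 0 ≤ κ) (hε : 0 < ε) :
    ∃ C c : ℝ, 0 < C ∧ 0 < c ∧ ∃ N₀ : ℕ, ∀ N : ℕ, N₀ ≤ N → ∀ (A B : Fin k → ℤ) (Q : ℕ → ℕ → Set ℕ),
      ({D : Fin k → ℤ | (∀ j, D j ≠ 0 ∧ |D j| ≤ N) ∧ ∃ x : ℕ, (Real.log N) ^ C ≤ x ∧
        (x : ℝ) ≤ (N : ℝ) ^ c ∧ ∃ i : ℕ, (i : ℝ) ≤ (x : ℝ) ^ κ ∧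
        ∃ t : Fin k → ℤ, (∀ j, t j ≠ 0) ∧ ∃ η : Fin r × Fin k → ℤ, (∀ z, η z = 1 ∨ η z = -1) ∧
        √((consec (primesAbs A B t (Q i x) x) r).card : ℝ) * (x : ℝ) ^ ε <
          |(patCount A B t D (Q i x) η x : ℝ) -
            ((consec (primesAbs A B t (Q i x) x) r).card : ℝ) / 2 ^ (r * k)|}.ncard : ℝ) ≤
        (N : ℝ) ^ ((k : ℝ) - c) := by
  classical
  obtain ⟨C, c, hC, hc, N₀, h⟩ := Tup.law r k ((κ + 1) + ((1 + 1) * k + (r * k : ℕ))) ε (by positivity) hε 4
  refine ⟨C, c, hC, hc, N₀, fun N hN A B Q => ?_⟩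
  refine le_trans ?_ (h N hN (ℕ × (Fin k → ℤ) × (Fin r × Fin k → ℤ))
    (fun x => range (⌊(x : ℝ) ^ κ⌋₊ + 1) ×ˢ (Fintype.piFinset fun _ : Fin k => ib 1 x) ×ˢ Sgt r k)
    (fun l x => consec (primesAbs A B l.2.1 (Q l.1 x) x) r)
    (fun l => Ev A B l.2.1 l.2.2) ?_)
  · refine Nat.cast_le.2 (Set.ncard_le_ncard ?_ ?_)
    · rintro D ⟨hD, x, hx1, hx2, i, hi, t, ht, η, hη, hlt⟩
      have hηS : η ∈ Sgt r k := mem_Sgt.2 hη
      have htx : ∀ j, |(t j : ℝ)| ≤ (x : ℝ) ^ (1 : ℝ) := by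
        intro j
        by_contra hcon
        push Not at hcon
        have hem : primesAbs A B t (Q i x) x = ∅ := by
          rw [eq_empty_iff_forall_notMem]
          intro p hp
          obtain ⟨hp1, _, _, _, hp5⟩ := mem_PA.1 hp
          have h2 := ap_abs (A j) (B j) p
          rw [(hp5 j).2] at h2
          have h3 : |(t j : ℝ)| ≤ (x : ℝ) := by
            rw [← Int.cast_abs]
            have : |t j| ≤ (x : ℤ) := h2.trans (by exact_mod_cast hp1.2)
            exact_mod_cast this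
          rw [Real.rpow_one] at hcon
          linarith
        have hem2 : consec (primesAbs A B t (Q i x) x) r = ∅ := by
          rw [← card_eq_zero, consec_card hr, hem, card_empty]
          omega
        have h3 : patCount A B t D (Q i x) η x = 0 := by
          unfold patCount
          rw [hem2]
          simp
        rw [h3, hem2] at hlt
        simp at hlt
      refine ⟨hD, x, hx1, hx2, (i, t, η), ?_, ?_⟩
      · simp only [mem_product, Fintype.mem_piFinset, mem_ib, mem_range]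
        exact ⟨Nat.lt_succ_of_le (Nat.le_floor hi), htx, hηS⟩
      · simp only
        set P := primesAbs A B t (Q i x) x with hP
        have hu : ∀ τ ∈ consec P r, ((Sgt r k).filter fun s => Ev A B t η τ s).card = 1 :=
          fun τ hτ => unique_sign ht hηS hτ
        have e1 : Tup.X (Ev A B t η) (consec P r) = consec P r := by
          unfold Tup.X
          refine filter_true_of_mem fun τ hτ => ?_
          obtain ⟨s, hs⟩ := card_pos.1 (by rw [hu τ hτ]; exact Nat.one_pos)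
          exact ⟨s, (mem_filter.1 hs).1, (mem_filter.1 hs).2⟩
        have e2 : Tup.mean (Ev A B t η) (consec P r) = ((consec P r).card : ℝ) / 2 ^ (r * k) := by
          unfold Tup.mean
          congr 1
          rw [sum_congr rfl fun τ hτ => by rw [hu τ hτ]]
          simp
        have e3 : Tup.cnt (Ev A B t η) (consec P r) D = patCount A B t D (Q i x) η x := by
          unfold Tup.cnt patCount
          refine congrArg card (filter_congr fun τ hτ => ?_)
          have hp : ∀ i, (τ i).Prime ∧ τ i ≠ 2 := fun i =>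
            ⟨(mem_PA.1 (consec_mem hτ i)).2.1, (mem_PA.1 (consec_mem hτ i)).2.2.1⟩
          have hgood : ∀ i j, ¬ (τ i : ℤ) ∣ 4 * A j ^ 3 + 27 * B j ^ 2 := fun i j =>
            ((mem_PA.1 (consec_mem hτ i)).2.2.2.2 j).1
          constructor
          · rintro ⟨h1, h2⟩ z
            refine ⟨(disc_iff _ _ _ (hp z.1).1).2 ⟨h1 z.1 z.2, hgood z.1 z.2⟩, ?_⟩
            rw [ap_twist _ _ _ (hp z.1).1 (hp z.1).2]
            exact h2 z
          · intro h1
            refine ⟨fun i l => ((disc_iff _ _ _ (hp i).1).1 (h1 (i, l)).1).1, fun z => ?_⟩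
            have h2 := (h1 z).2
            rw [ap_twist _ _ _ (hp z.1).1 (hp z.1).2] at h2
            exact h2
        rw [e1, e2, e3]
        exact hlt
    · refine Set.Finite.subset (Set.Finite.pi (t := fun _ : Fin k => Set.Icc (-(N : ℤ)) N)
        (fun _ => Set.finite_Icc _ _)) ?_
      rintro D ⟨hD, _⟩ j _
      exact abs_le.1 (hD j).2
  · intro x hx
    refine ⟨?_, fun l _ => good_consec hr fun p hp => ⟨(mem_PA.1 hp).2.1, (mem_PA.1 hp).2.2.1,
      (mem_PA.1 hp).1.2⟩⟩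
    have hx4 : (4 : ℝ) ≤ x := by exact_mod_cast hx
    have hx0 : (0 : ℝ) < x := by linarith
    simp only [card_product, Nat.cast_mul]
    rw [Real.rpow_add hx0 (κ + 1), Real.rpow_add hx0 ((1 + 1) * (k : ℝ))]
    have h1 := range_card κ hκ x (by omega)
    have h2 := card_vec (Fin k) 1 zero_le_one x hx
    rw [Fintype.card_fin] at h2
    have h4 : ((Sgt r k).card : ℝ) ≤ (x : ℝ) ^ ((r : ℝ) * k) := by
      rw [card_Sgt, ← Nat.cast_mul, Real.rpow_natCast]
      push_cast
      exact pow_le_pow_left₀ (by norm_num) (by linarith) _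
    refine mul_le_mul h1 (mul_le_mul h2 h4 ?_ ?_) ?_ ?_ <;> positivity

end Pool.Agent.Results.MP_f1937f_nt.ConsecutivePatterns
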