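import Pool.Agent.Q235.FD.Ell

/-!
# The Lang-Trotter problem for systems of elliptic curves whose coefficients arise from arbitrary integers by changing a few
digits, in arbitrary sets of primes

Let `s` curves `E_j : Y ^ 2 = X ^ 3 + m (j, 0) X + m (j, 1)` be given, whose `2 s` coefficients arise from arbitrary integers by
changing a few digits at random positions. We count the primes `p` of good reduction in an arbitrary set of primes up to `x` (all
primes, those in an arithmetic progression, in a short interval, with a given Frobenius class, ...) at which the traces of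
Frobenius of the curves `E_j` are `t j`, simultaneously for all `j`. For almost all choices of the positions this number is, up
to its square root and a factor `x ^ δ`, the sum over the primes of the product of the proportions of the curves modulo `p` with the
trace `t j`, simultaneously for all vectors `t` of traces and for up to `x ^ B` sets of primes, and for all `x` from `y` to
`exp (c r)`, where `r` is the number of the digits changed.
-/

set_option autoImplicit false

namespace Pool.Agent.Results.MP_f1937f_nt.FewDigitSystems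

open Finset Pool.Agent.Q235.FD

/-- `p` is a prime of good reduction of (the model) `Y ^ 2 = X ^ 3 + a X + b`, and the trace of Frobenius
`p + 1 - #E(F_p) = p - points p a b` is `t`. -/
def HasTrace (t : ℤ) (p a b : ℕ) : Prop := Smooth p a b ∧ (p : ℤ) - points p a b = t

/-- For all sets `P` of primes in the family and all vectors `t` of traces, the number of the primes `p ∈ P` such that `E_j` has
the trace `t j` at `p` for all `j` differs from the sum `V` of the products of the proportions by at most
`(max 1 V) ^ (1 / 2) x ^ δ`. -/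
def Good {s B : ℕ} (δ : ℝ) (θ : Sets B) (x : ℕ) (m : Fin s × Fin 2 → ℕ) : Prop :=
  ∀ P ∈ θ.S x, ∀ t : Fin s → ℤ,
    |(number P (fun p => ∀ j, HasTrace (t j) p (m (j, 0)) (m (j, 1))) : ℝ)
      - ∑ p ∈ P, ∏ j, curveProportion p (HasTrace (t j) p)| ≤
    Real.sqrt (max 1 (∑ p ∈ P, ∏ j, curveProportion p (HasTrace (t j) p))) * (x : ℝ) ^ δ

lemma trace_mod (t : ℤ) (p a b : ℕ) : HasTrace t p a b ↔ HasTrace t p (a % p) (b % p) := by
  unfold HasTrace
  rw [points_mod, smooth_mod]

/-- For all numbers `s` of curves, bases `b ≥ 2`, `δ > 0`, `A` and `B`, `Good δ θ x m` holds for almost all systems `m` of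
coefficients obtained by changing a few digits of arbitrary integers (`ForAlmostAll`), uniformly in the family `θ` of at most
`x ^ B` sets of primes up to `x`. -/
theorem result (s : ℕ) (hs : 1 ≤ s) (b : ℕ) (hb : 2 ≤ b) (δ : ℝ) (hδ : 0 < δ) (A B : ℕ) :
    ForAlmostAll (Fin s × Fin 2) b A (Good (s := s) (B := B) δ) := by
  classical
  have h := ell_law s hs hb hδ A B 4 (fun x => Icc (-((x : ℤ) ^ 2)) ((x : ℤ) ^ 2)) (by
    intro x hx
    rw [Int.card_Icc]
    have e1 : ((x : ℤ) ^ 2 + 1 - -((x : ℤ) ^ 2)).toNat = 2 * x ^ 2 + 1 := by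
      have : (x : ℤ) ^ 2 + 1 - -((x : ℤ) ^ 2) = ((2 * x ^ 2 + 1 : ℕ) : ℤ) := by push_cast; ring
      rw [this, Int.toNat_natCast]
    rw [e1]
    have h2 : x ^ 4 = x ^ 2 * x ^ 2 := by ring
    have h3 : 4 ≤ x ^ 2 := by nlinarith
    nlinarith) HasTrace trace_mod
  refine h.mono 0 ?_
  intro θ x m _ hE P hP t
  by_cases hall : ∀ j, t j ∈ Icc (-((x : ℤ) ^ 2)) ((x : ℤ) ^ 2)
  · exact hE P hP t hall
  · push Not at hall
    obtain ⟨j, hj⟩ := hall
    have hno : ∀ p ∈ P, ∀ a b, ¬ HasTrace (t j) p a b := by
      intro p hp a b hk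
      apply hj
      obtain ⟨_, h1⟩ := hk
      have h2 := (θ.prime x P hP p hp).2
      have h3 : p ^ 2 ≤ x ^ 2 := Nat.pow_le_pow_left h2 2
      have h4 := points_le p a b
      have h5 : p ≤ x ^ 2 := h2.trans (Nat.le_self_pow (by norm_num) x)
      have h6 : (points p a b : ℤ) ≤ (x : ℤ) ^ 2 := by exact_mod_cast h4.trans h3
      have h7 : (p : ℤ) ≤ (x : ℤ) ^ 2 := by exact_mod_cast h5
      have h8 : (0 : ℤ) ≤ points p a b := Nat.cast_nonneg _
      have h9 : (0 : ℤ) ≤ (p : ℤ) := Nat.cast_nonneg _
      rw [mem_Icc, ← h1]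
      constructor <;> linarith
    have h1 : number P (fun p => ∀ j, HasTrace (t j) p (m (j, 0)) (m (j, 1))) = 0 :=
      number_eq_zero fun p hp hcon => hno p hp _ _ (hcon j)
    have h2 : ∑ p ∈ P, ∏ j, curveProportion p (HasTrace (t j) p) = 0 :=
      sum_eq_zero fun p hp => prod_eq_zero (mem_univ j) (curveProportion_eq_zero (hno p hp))
    rw [h1, h2, Nat.cast_zero, sub_zero, abs_zero]
    positivity

end Pool.Agent.Results.MP_f1937f_nt.FewDigitSystems
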