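import Pool.Agent.Q56.WL.Ell

/-!
# The Lang-Trotter problem for ALL systems of elliptic curves with coefficients in windows near powers with non-integral
exponents, in arbitrary sets of primes

Let `s` curves `E_j : Y ^ 2 = X ^ 3 + n (j, 0) X + n (j, 1)` be given, whose `2 s` coefficients are arbitrary integers in the
windows of length `y ^ W` around the real numbers `β l + w l * i (μ l) ^ e l`, where `i = (i_1, ..., i_m)` runs through
`{1, ..., x} ^ m`, the exponents `e l > 1` are not integers, and two coordinates `l`, `l'` which depend on the same index have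
different exponents. For instance `m = 1`: the curves with coefficients close to `(i ^ (3/2), i ^ (5/2))`, a one-parameter family.
We count the primes `p` of good reduction in an arbitrary set of primes up to `z` at which the traces of Frobenius of the curves
`E_j` are `t j`, simultaneously for all `j`. For almost all index vectors and ALL coefficients in the windows this number is, up
to its square root and a factor `z ^ δ`, the sum over the primes of the product of the proportions of the curves modulo `p` with
the trace `t j`, simultaneously for all vectors `t` of traces, for up to `z ^ B` sets of primes, and for all `z` from `y` to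
`x ^ c`.
-/

set_option autoImplicit false

namespace Pool.Agent.Results.MP_f1937f_nt.NearPowers

open Finset Pool.Agent.Q56.WL
open Pool.Agent.Q235.FD (Sets number curveProportion Smooth points points_mod smooth_mod points_le number_eq_zero
  curveProportion_eq_zero)

/-- `p` is a prime of good reduction of (the model) `Y ^ 2 = X ^ 3 + a X + b`, and the trace of Frobenius
`p + 1 - #E(F_p) = p - points p a b` is `t`. -/
def HasTrace (t : ℤ) (p a b : ℕ) : Prop := Smooth p a b ∧ (p : ℤ) - points p a b = t

/-- For all sets `P` of primes in the family and all vectors `t` of traces, the number of the primes `p ∈ P` such that `E_j` has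
the trace `t j` at `p` for all `j` differs from the sum `V` of the products of the proportions by at most
`(max 1 V) ^ (1 / 2) z ^ δ`. -/
def Good {s B : ℕ} (δ : ℝ) (θ : Sets B) (z : ℕ) (n : Fin s × Fin 2 → ℕ) : Prop :=
  ∀ P ∈ θ.S z, ∀ t : Fin s → ℤ,
    |(number P (fun p => ∀ j, HasTrace (t j) p (n (j, 0)) (n (j, 1))) : ℝ)
      - ∑ p ∈ P, ∏ j, curveProportion p (HasTrace (t j) p)| ≤
    Real.sqrt (max 1 (∑ p ∈ P, ∏ j, curveProportion p (HasTrace (t j) p))) * (z : ℝ) ^ δ

lemma trace_mod (t : ℤ) (p a b : ℕ) : HasTrace t p a b ↔ HasTrace t p (a % p) (b % p) := by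
  unfold HasTrace
  rw [points_mod, smooth_mod]

/-- Let the exponents `e`, the coefficients `w` and the map `μ` from the `2 s` coordinates to the `m` indices be as in
`Setting`. For all `δ > 0`, `A`, `W` and `B` the property `Good δ θ z n` holds for almost all index vectors and ALL coefficients
`n` in the windows of length `y ^ W` (`ForAlmostAll`), uniformly in the shifts `β` and in the family `θ` of at most `z ^ B` sets of
primes up to `z`. -/
theorem result (s m : ℕ) (e w : Fin s × Fin 2 → ℝ) (μ : Fin s × Fin 2 → Fin m) (hs : Setting e w μ)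
    (δ : ℝ) (hδ : 0 < δ) (A W B : ℕ) : ForAlmostAll e w μ A W (Good (s := s) (B := B) δ) := by
  classical
  have h := ell_near hs hδ A W B 4 (fun x => Icc (-((x : ℤ) ^ 2)) ((x : ℤ) ^ 2)) (by
    intro x hx
    rw [Int.card_Icc]
    have e1 : ((x : ℤ) ^ 2 + 1 - -((x : ℤ) ^ 2)).toNat = 2 * x ^ 2 + 1 := by
      have : (x : ℤ) ^ 2 + 1 - -((x : ℤ) ^ 2) = ((2 * x ^ 2 + 1 : ℕ) : ℤ) := by push_cast; ring
      rw [this, Int.toNat_natCast]
    rw [e1]
    have h2 : x ^ 4 = x ^ 2 * x ^ 2 := by ring
    have h3 : 4 ≤ x ^ 2 := by nlinarith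
    nlinarith) HasTrace trace_mod
  refine h.mono 0 ?_
  intro θ x n _ hE P hP t
  by_cases hall : ∀ j, t j ∈ Icc (-((x : ℤ) ^ 2)) ((x : ℤ) ^ 2)
  · exact hE P hP t hall
  · push Not at hall
    obtain ⟨j, hj⟩ := hall
    have hno : ∀ p ∈ P, ∀ a b, ¬ HasTrace (t j) p a b := by
      intro p hp a b hk
      apply hj
      obtain ⟨_, h1⟩ := hk
      have h2 := (θ.prime x P hP p hp).2
      have h3 : p ^ 2 ≤ x ^ 2 := Nat.pow_le_pow_left h2 2
      have h4 := points_le p a b
      have h5 : p ≤ x ^ 2 := h2.trans (Nat.le_self_pow (by norm_num) x)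
      have h6 : (points p a b : ℤ) ≤ (x : ℤ) ^ 2 := by exact_mod_cast h4.trans h3
      have h7 : (p : ℤ) ≤ (x : ℤ) ^ 2 := by exact_mod_cast h5
      have h8 : (0 : ℤ) ≤ points p a b := Nat.cast_nonneg _
      have h9 : (0 : ℤ) ≤ (p : ℤ) := Nat.cast_nonneg _
      rw [mem_Icc, ← h1]
      constructor <;> linarith
    have h1 : number P (fun p => ∀ j, HasTrace (t j) p (n (j, 0)) (n (j, 1))) = 0 :=
      number_eq_zero fun p hp hcon => hno p hp _ _ (hcon j)
    have h2 : ∑ p ∈ P, ∏ j, curveProportion p (HasTrace (t j) p) = 0 :=
      sum_eq_zero fun p hp => prod_eq_zero (mem_univ j) (curveProportion_eq_zero (hno p hp))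
    rw [h1, h2, Nat.cast_zero, sub_zero, abs_zero]
    positivity

end Pool.Agent.Results.MP_f1937f_nt.NearPowers
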