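import Mathlib
import Pool.Agent.Q233.TL.Curves

set_option autoImplicit false

/-! # Joint Lang–Trotter counts for almost all vectors of quadratic twists

Let `E_j : y² = x³ + A_j x + B_j` be `k` arbitrary curves and `Q_0, Q_1, …` arbitrary sets of primes.
For all but at most `N ^ (k - c)` of the vectors `(D_1, …, D_k)` of nonzero integers of modulus at
most `N`, the following holds for all `x` with `(log N) ^ C ≤ x ≤ N ^ c`, all `i ≤ x ^ κ` and all
vectors `(t_1, …, t_k)` of nonzero integers: the number of the primes `p ≤ x` in `Q_i` at which the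
quadratic twists `E_j^{D_j}` have the traces `t_j` is `2 ^ (-k) n + O(√n x ^ ε)`, where `n` is the
number of the primes `p ≤ x` in `Q_i` with `|a_p(E_j)| = |t_j|` for all `j`.
-/

namespace Pool.Agent.Results.MP_f1937f_nt.SimultaneousTwists

open Finset Pool.Agent.W406.TW Pool.Agent.Q233.TL

/-- the number of the odd primes `p ≤ x` in `Q`, not dividing `4 A_j³ + 27 B_j²` for any `j`, at which
the trace of Frobenius `ap (A j) (B j) p` of `y² = x³ + A_j x + B_j` is `t j` for all `j` -/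
noncomputable def traceCount {k : ℕ} (A B t : Fin k → ℤ) (Q : Set ℕ) (x : ℕ) : ℕ := by
  classical
  exact ((Icc 1 x).filter fun p : ℕ => p.Prime ∧ p ≠ 2 ∧ p ∈ Q ∧
    ∀ j, ¬ (p : ℤ) ∣ 4 * A j ^ 3 + 27 * B j ^ 2 ∧ ap (A j) (B j) p = t j).card

/-- the same with `|ap (A j) (B j) p| = |t j|` -/
noncomputable def absTraceCount {k : ℕ} (A B t : Fin k → ℤ) (Q : Set ℕ) (x : ℕ) : ℕ := by
  classical
  exact ((Icc 1 x).filter fun p : ℕ => p.Prime ∧ p ≠ 2 ∧ p ∈ Q ∧
    ∀ j, ¬ (p : ℤ) ∣ 4 * A j ^ 3 + 27 * B j ^ 2 ∧ |ap (A j) (B j) p| = |t j|).card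

/-- the predicate for the twist law -/
def Ev {k : ℕ} (A B : Fin k → ℤ) (Q : Set ℕ) (t : Fin k → ℤ) (p : ℕ) (s : Fin k → ℤ) : Prop :=
  p ∈ Q ∧ (∀ j, ¬ (p : ℤ) ∣ 4 * A j ^ 3 + 27 * B j ^ 2) ∧ ∀ j, s j * ap (A j) (B j) p = t j

lemma X_card {k : ℕ} (A B t : Fin k → ℤ) (ht : ∀ j, t j ≠ 0) (Q : Set ℕ) (x : ℕ) :
    (X (Ev A B Q t) x).card = absTraceCount A B t Q x := by
  classical
  unfold absTraceCount
  congr 1
  ext p
  rw [mem_X, mem_filter, mem_Icc]
  constructor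
  · rintro ⟨h1, h2, h3, s, hs, h4, h5, h6⟩
    refine ⟨h1, h2, h3, h4, fun j => ⟨h5 j, ?_⟩⟩
    unfold Sg at hs
    have h7 := (Fintype.mem_piFinset.1 hs) j
    rw [mem_insert, mem_singleton] at h7
    rw [← h6 j]
    rcases h7 with h7 | h7 <;> rw [h7] <;> simp
  · rintro ⟨h1, h2, h3, h4, h5⟩
    have h6 := card_signs (fun j => ap (A j) (B j) p) t ht
    rw [if_pos (fun j => (h5 j).2)] at h6
    obtain ⟨s, hs⟩ := card_pos.1 (by rw [h6]; exact Nat.one_pos)
    rw [mem_filter] at hs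
    exact ⟨h1, h2, h3, s, hs.1, h4, fun j => (h5 j).1, hs.2⟩

lemma mean_card {k : ℕ} (A B t : Fin k → ℤ) (ht : ∀ j, t j ≠ 0) (Q : Set ℕ) (x : ℕ) :
    mean (Ev A B Q t) x = (absTraceCount A B t Q x : ℝ) / 2 ^ k := by
  classical
  unfold mean absTraceCount
  congr 1
  rw [card_filter]
  push_cast
  rw [sum_filter]
  refine sum_congr rfl fun p _ => ?_
  by_cases h1 : p.Prime ∧ p ≠ 2
  · rw [if_pos h1]
    by_cases h2 : p ∈ Q ∧ ∀ j, ¬ (p : ℤ) ∣ 4 * A j ^ 3 + 27 * B j ^ 2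
    · have h3 := card_signs (fun j => ap (A j) (B j) p) t ht
      have h4 : (Sg k).filter (fun s => Ev A B Q t p s) =
          (Sg k).filter (fun s => ∀ j, s j * ap (A j) (B j) p = t j) := by
        apply filter_congr
        intro s _
        unfold Ev
        constructor
        · exact fun h => h.2.2
        · exact fun h => ⟨h2.1, h2.2, h⟩
      rw [h4, h3]
      by_cases h5 : ∀ j, |ap (A j) (B j) p| = |t j|
      · rw [if_pos h5, if_pos ⟨h1.1, h1.2, h2.1, fun j => ⟨h2.2 j, h5 j⟩⟩]; simp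
      · rw [if_neg h5, if_neg (fun h => h5 fun j => (h.2.2.2 j).2)]; simp
    · have h4 : (Sg k).filter (fun s => Ev A B Q t p s) = ∅ := by
        apply filter_eq_empty_iff.2
        intro s _ h
        exact h2 ⟨h.1, h.2.1⟩
      rw [h4, if_neg (fun h => h2 ⟨h.2.2.1, fun j => (h.2.2.2 j).1⟩)]; simp
  · rw [if_neg h1, if_neg (fun h => h1 ⟨h.1, h.2.1⟩)]

lemma cnt_eq {k : ℕ} (A B t D : Fin k → ℤ) (Q : Set ℕ) (x : ℕ) :
    Q233.TL.cnt (Ev A B Q t) D x =
      traceCount (fun j => A j * D j ^ 2) (fun j => B j * D j ^ 3) t Q x := by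
  classical
  unfold Q233.TL.cnt traceCount
  congr 1
  ext p
  rw [mem_filter, mem_filter]
  constructor
  · rintro ⟨h1, h2, h3, h4, h5, h6, h7⟩
    refine ⟨h1, h2, h3, h5, fun j => ⟨(disc_iff _ _ _ h2).2 ⟨h4 j, h6 j⟩, ?_⟩⟩
    rw [ap_twist _ _ _ h2 h3]
    exact h7 j
  · rintro ⟨h1, h2, h3, h4, h5⟩
    refine ⟨h1, h2, h3, fun j => ((disc_iff _ _ _ h2).1 (h5 j).1).1, h4,
      fun j => ((disc_iff _ _ _ h2).1 (h5 j).1).2, fun j => ?_⟩
    rw [← ap_twist _ _ _ h2 h3]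
    exact (h5 j).2

theorem result (k : ℕ) (κ ε : ℝ) (hκ : 0 ≤ κ) (hε : 0 < ε) :
    ∃ C c : ℝ, 0 < C ∧ 0 < c ∧ ∃ N₀ : ℕ, ∀ N : ℕ, N₀ ≤ N → ∀ (A B : Fin k → ℤ) (Q : ℕ → Set ℕ),
      ({D : Fin k → ℤ | (∀ j, D j ≠ 0 ∧ |D j| ≤ N) ∧ ∃ x : ℕ, (Real.log N) ^ C ≤ x ∧
        (x : ℝ) ≤ (N : ℝ) ^ c ∧ ∃ i : ℕ, (i : ℝ) ≤ (x : ℝ) ^ κ ∧ ∃ t : Fin k → ℤ, (∀ j, t j ≠ 0) ∧
        √(absTraceCount A B t (Q i) x : ℝ) * (x : ℝ) ^ ε <
          |(traceCount (fun j => A j * D j ^ 2) (fun j => B j * D j ^ 3) t (Q i) x : ℝ) -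
            absTraceCount A B t (Q i) x / 2 ^ k|}.ncard : ℝ) ≤ (N : ℝ) ^ ((k : ℝ) - c) := by
  classical
  obtain ⟨C, c, hC, hc, N₀, h⟩ := law k (2 * k + (κ + 1)) ε (by positivity) hε 3
  obtain ⟨N₁, hN₁⟩ := Filter.eventually_atTop.1
    ((Real.tendsto_log_atTop.comp tendsto_natCast_atTop_atTop).eventually_ge_atTop (1 : ℝ))
  refine ⟨C, c, hC, hc, max N₀ N₁, fun N hN A B Q => ?_⟩
  have hN0 : N₀ ≤ N := (le_max_left _ _).trans hN
  have hN1 : 1 ≤ Real.log N := hN₁ N ((le_max_right _ _).trans hN)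
  refine le_trans ?_ (h N hN0 ((Fin k → ℤ) × ℕ)
    (fun x => (Fintype.piFinset fun _ : Fin k => Icc (-(x : ℤ)) x) ×ˢ range (⌊(x : ℝ) ^ κ⌋₊ + 1))
    (fun l => Ev A B (Q l.2) l.1) ?_)
  · refine Nat.cast_le.2 (Set.ncard_le_ncard ?_ ?_)
    · rintro D ⟨hD, x, hx1, hx2, i, hi, t, ht, hlt⟩
      refine ⟨hD, x, hx1, hx2, (t, i), ?_, ?_⟩
      · rw [mem_product]
        constructor
        · -- the values of the traces are in the range, as otherwise nothing is to be proved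
          rw [Fintype.mem_piFinset]
          intro j
          by_contra hcon
          have h0 : ∀ (A' B' : Fin k → ℤ) (p : ℕ), p ≤ x → |ap (A' j) (B' j) p| ≠ |t j| := by
            intro A' B' p hp h1
            apply hcon
            rw [mem_Icc, ← abs_le, ← h1]
            exact (ap_abs _ _ _).trans (by exact_mod_cast hp)
          have h1 : absTraceCount A B t (Q i) x = 0 := by
            unfold absTraceCount
            rw [card_eq_zero]
            apply filter_eq_empty_iff.2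
            rintro p hp ⟨_, _, _, h2⟩
            exact h0 A B p (mem_Icc.1 hp).2 (h2 j).2
          have h2 : traceCount (fun j => A j * D j ^ 2) (fun j => B j * D j ^ 3) t (Q i) x = 0 := by
            unfold traceCount
            rw [card_eq_zero]
            apply filter_eq_empty_iff.2
            rintro p hp ⟨_, _, _, h2⟩
            refine h0 (fun j => A j * D j ^ 2) (fun j => B j * D j ^ 3) p (mem_Icc.1 hp).2 ?_
            rw [(h2 j).2]
          rw [h1, h2] at hlt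
          simp at hlt
        · rw [mem_range]
          exact Nat.lt_succ_of_le (Nat.le_floor hi)
      · rw [X_card A B t ht, mean_card A B t ht, cnt_eq]
        exact hlt
    · refine Set.Finite.subset (Set.Finite.pi (t := fun _ : Fin k => Set.Icc (-(N : ℤ)) N)
        (fun _ => Set.finite_Icc _ _)) ?_
      rintro D ⟨hD, _⟩ j _
      exact abs_le.1 (hD j).2
  · intro x hx
    have hx1 : (1 : ℝ) ≤ x := by
      have : (3 : ℝ) ≤ x := by exact_mod_cast hx
      linarith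
    have hx0 : (0 : ℝ) < x := by linarith
    rw [card_product, Nat.cast_mul, Real.rpow_add hx0]
    exact mul_le_mul (box_card k x hx) (range_card κ hκ x hx) (by positivity) (by positivity)

end Pool.Agent.Results.MP_f1937f_nt.SimultaneousTwists
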